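import Pool.Agent.Helper84.OV.Zero

/-!
# Project OV: packet PSI (Taylor expansion along a curve)
-/

set_option autoImplicit false

open Finset

namespace Pool.Agent.Helper66.OV.PSI

open Pool.Agent.Helper84.OV
open scoped Nat

/-- The Taylor series of an additive map. -/
noncomputable def tay {R : Type} [CommRing R] (D : R →+ R) (e : R →+* ℚ) (S : R) : PowerSeries ℚ :=
  PowerSeries.mk fun j => e (D^[j] S) / (j ! : ℚ)

lemma tay_coeff {R : Type} [CommRing R] (D : R →+ R) (e : R →+* ℚ) (S : R) (j : ℕ) :
    PowerSeries.coeff j (tay D e S) = e (D^[j] S) / (j ! : ℚ) := by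
  unfold tay; rw [PowerSeries.coeff_mk]

lemma tay_add {R : Type} [CommRing R] (D : R →+ R) (e : R →+* ℚ) (S T : R) :
    tay D e (S + T) = tay D e S + tay D e T := by
  ext n
  rw [map_add, tay_coeff, tay_coeff, tay_coeff, iterate_map_add, map_add, add_div]

lemma tay_zero {R : Type} [CommRing R] (D : R →+ R) (e : R →+* ℚ) : tay D e 0 = 0 := by
  ext n
  rw [tay_coeff, iterate_map_zero, map_zero, zero_div, map_zero]

lemma tay_dd {R : Type} [CommRing R] (D : R →+ R) (e : R →+* ℚ) (S : R) :
    dd (tay D e S) = tay D e (D S) := by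
  ext n
  rw [PowerSeries.coeff_derivative, tay_coeff, tay_coeff, Function.iterate_succ_apply,
    Nat.factorial_succ]
  have h1 : ((n : ℚ) + 1) ≠ 0 := by positivity
  have h2 : (n ! : ℚ) ≠ 0 := by positivity
  push_cast
  field_simp

lemma tay_mul {R : Type} [CommRing R] (D : R →+ R) (e : R →+* ℚ)
    (hD : ∀ S T, D (S * T) = D S * T + S * D T) (S T : R) :
    tay D e (S * T) = tay D e S * tay D e T := by
  ext n
  induction n generalizing S T with
  | zero =>
    rw [PowerSeries.coeff_mul, Finset.Nat.antidiagonal_zero, Finset.sum_singleton]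
    simp only [tay_coeff, Function.iterate_zero, id_eq, Nat.factorial_zero, Nat.cast_one, div_one,
      map_mul]
  | succ n ih =>
    have h1 : ((n : ℚ) + 1) ≠ 0 := by positivity
    have h2 : PowerSeries.coeff n (dd (tay D e (S * T))) =
        PowerSeries.coeff n (dd (tay D e S * tay D e T)) := by
      have h3 : dd (tay D e S * tay D e T) =
          tay D e S * dd (tay D e T) + tay D e T * dd (tay D e S) :=
        Derivation.leibniz _ _ _
      rw [tay_dd, hD, tay_add, map_add, ih, ih, h3, tay_dd, tay_dd, map_add, add_comm,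
        mul_comm (tay D e (D S))]
    rw [PowerSeries.coeff_derivative, PowerSeries.coeff_derivative] at h2
    exact mul_right_cancel₀ h1 h2

lemma tay_one {R : Type} [CommRing R] (D : R →+ R) (e : R →+* ℚ)
    (hD : ∀ S T, D (S * T) = D S * T + S * D T) : tay D e 1 = 1 := by
  have h1 : D 1 = 0 := by
    have h := hD 1 1
    rw [mul_one, mul_one, one_mul] at h
    exact left_eq_add.1 h
  ext n
  rw [tay_coeff]
  rcases n with _ | n
  · simp
  · rw [Function.iterate_succ_apply, h1, iterate_map_zero, map_zero, zero_div,
      PowerSeries.coeff_one, if_neg (Nat.succ_ne_zero n)]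

/-- The derivation as an additive map. -/
noncomputable def DA (G : R2) : R2 →+ R2 where
  toFun := DG G
  map_zero' := by unfold DG; rw [dX_zero]; simp
  map_add' S T := by unfold DG; rw [dX_add, Polynomial.derivative_add]; ring

lemma DA_apply (G S : R2) : DA G S = DG G S := rfl

theorem t : S_PSI := by
  intro G p q hG
  set e : R2 →+* ℚ := (Int.castRingHom ℚ).comp (ev p q) with he
  have hea : ∀ S, e S = ((ev p q S : ℤ) : ℚ) := fun S => rfl
  have hD : ∀ S T, DA G (S * T) = DA G S * T + S * DA G T := by
    intro S T
    rw [DA_apply, DA_apply, DA_apply]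
    unfold DG
    rw [dX_mul, Polynomial.derivative_mul]
    ring
  refine ⟨{ toFun := tay (DA G) e, map_one' := tay_one _ _ hD, map_mul' := tay_mul _ _ hD,
            map_zero' := tay_zero _ _, map_add' := tay_add _ _ }, ?_, ?_, ?_⟩
  · intro S
    change PowerSeries.constantCoeff (tay (DA G) e S) = _
    rw [← PowerSeries.coeff_zero_eq_constantCoeff_apply, tay_coeff]
    simp [hea]
  · intro S
    exact tay_dd (DA G) e S
  · change tay (DA G) e G = 0
    have h1 : DA G G = 0 := by
      rw [DA_apply]; unfold DG; ring
    ext n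
    rw [tay_coeff, map_zero]
    rcases n with _ | n
    · simp [hea, hG]
    · rw [Function.iterate_succ_apply, h1, iterate_map_zero, map_zero, zero_div]

end Pool.Agent.Helper66.OV.PSI
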