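import Pool.Agent.Helper7.OV.Goals1

/-!
# Project OV: packet WT (weights)
-/

set_option autoImplicit false

namespace Pool.Agent.Helper66.OV.WT

open Pool.Agent.Helper7.OV

theorem t : S_WT := by
  intro u v T c F m hF hm k l hkl
  unfold act
  refine Finset.sum_eq_zero fun j _ => Finset.sum_eq_zero fun i _ => ?_
  by_cases h : co F i j = 0
  · rw [h, Int.cast_zero, zero_mul]
  · have h1 := hF i j h
    have h2 : u * (k - i) + v * (l - j) = u * k + v * l - (u * i + v * j) := by ring
    rw [hm (k - i) (l - j) (by rw [h2]; linarith), mul_zero]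

end Pool.Agent.Helper66.OV.WT
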